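import Mathlib

set_option autoImplicit false

/-!
# MP_0bffa7_co: the tree-independence number of `P₅`-free graphs is not `ibn + O(1)`

Let `G` be the blow-up of the `5`-cycle in which each vertex is replaced by `m` independent
vertices.  It is `P₅`-free, and its largest induced balanced biclique is `K_{m,m}`.  In any tree
decomposition of any finite graph some bag contains a vertex together with all its neighbours.  In
`G` the neighbours of a vertex form an independent set of `2m` vertices, so the tree-independence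
number of `G` is at least `2m`.
-/

open SimpleGraph

namespace Pool.Agent.Results.MP_0bffa7_co.PentagonBlowUp

/-- `(T, X)` is a tree decomposition of `G`: `T` is a tree, each vertex and each edge of `G` lies
in some bag `X t`, and for each vertex `v` the nodes `t` with `v ∈ X t` induce a connected (in
particular non-empty) subgraph of `T`. -/
structure IsTreeDecomposition {V ι : Type} (G : SimpleGraph V) (T : SimpleGraph ι)
    (X : ι → Set V) : Prop where
  isTree : T.IsTree
  vertex_mem : ∀ v, ∃ t, v ∈ X t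
  edge_mem : ∀ u v, G.Adj u v → ∃ t, u ∈ X t ∧ v ∈ X t
  connected : ∀ v, (T.induce {t | v ∈ X t}).Connected

/-- The tree-independence number of a finite graph `G`: the minimum, over all tree decompositions
`(T, X)` with a finite tree, of `max_t α(G[X t])`, i.e. the least `k` such that for some tree
decomposition the independence numbers of all the graphs `G[X t]` are at most `k`. -/
noncomputable def treeAlpha {V : Type} (G : SimpleGraph V) : ℕ :=
  sInf {k | ∃ (ι : Type) (_ : Finite ι) (T : SimpleGraph ι) (X : ι → Set V),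
    IsTreeDecomposition G T X ∧ ∀ t, (G.induce (X t)).indepNum ≤ k}

/-- The induced biclique number of a finite graph `G`: the largest `t` such that `K_{t,t}` is an
induced subgraph of `G`. -/
noncomputable def ibn {V : Type} (G : SimpleGraph V) : ℕ :=
  sSup {t | Nonempty (completeBipartiteGraph (Fin t) (Fin t) ↪g G)}

/-! ### Some bag contains a closed neighbourhood -/

/-- In an acyclic graph with an edge `st` there are no walks `t → x` avoiding `s` and `x → s`
avoiding `t`. -/
theorem no_detour {ι : Type} {T : SimpleGraph ι} (hT : T.IsAcyclic) {s t x : ι} (hst : T.Adj t s)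
    (p : T.Walk t x) (hp : s ∉ p.support) (q : T.Walk x s) (hq : t ∉ q.support) : False := by
  have h1 := isAcyclic_iff_forall_adj_isBridge.1 hT hst
  rw [isBridge_iff_forall_walk_mem_edges] at h1
  have h2 := h1 (p.append q)
  rw [Walk.edges_append, List.mem_append] at h2
  rcases h2 with h2 | h2
  · exact hp (Walk.snd_mem_support_of_mem_edges p h2)
  · exact hq (Walk.fst_mem_support_of_mem_edges q h2)

/-- two nodes of a connected set of nodes are joined by a walk in this set -/
theorem walk_in {ι : Type} {T : SimpleGraph ι} {S : Set ι} (hS : (T.induce S).Connected)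
    {a b : ι} (ha : a ∈ S) (hb : b ∈ S) : ∃ p : T.Walk a b, ∀ y ∈ p.support, y ∈ S := by
  obtain ⟨p⟩ := hS.preconnected ⟨a, ha⟩ ⟨b, hb⟩
  have hsup : ∀ y ∈ (p.map (Embedding.induce S).toHom).support, y ∈ S := by
    intro y hy
    rw [Walk.support_map, List.mem_map] at hy
    obtain ⟨z, -, rfl⟩ := hy
    exact z.2
  exact ⟨p.map (Embedding.induce S).toHom, hsup⟩

theorem exists_bag {V ι : Type} [Finite V] [Nonempty V] {G : SimpleGraph V} {T : SimpleGraph ι}
    {X : ι → Set V} (h : IsTreeDecomposition G T X) :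
    ∃ v t, v ∈ X t ∧ ∀ w, G.Adj v w → w ∈ X t := by
  classical
  have hconn := h.isTree.1
  obtain ⟨r⟩ := hconn.nonempty
  -- the top node of each vertex
  have htop : ∀ v, ∃ t, v ∈ X t ∧ ∀ t', v ∈ X t' → T.dist r t ≤ T.dist r t' := by
    intro v
    have hne : ∃ n, ∃ t, v ∈ X t ∧ T.dist r t = n := by
      obtain ⟨t, ht⟩ := h.vertex_mem v
      exact ⟨_, t, ht, rfl⟩
    obtain ⟨t, ht, hn⟩ := Nat.find_spec hne
    refine ⟨t, ht, fun t' ht' => ?_⟩
    rw [hn]
    exact Nat.find_min' hne ⟨t', ht', rfl⟩
  choose τ hτ hmin using htop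
  obtain ⟨v, hv⟩ := Finite.exists_max (fun v => T.dist r (τ v))
  refine ⟨v, τ v, hτ v, fun w hw => ?_⟩
  by_contra hcon
  obtain ⟨x, hxv, hxw⟩ := h.edge_mem v w hw
  have hle : T.dist r (τ w) ≤ T.dist r (τ v) := hv w
  have hne : τ w ≠ τ v := by
    intro he
    rw [← he] at hcon
    exact hcon (hτ w)
  -- a shortest walk from `r` to `τ w` avoids `τ v`
  obtain ⟨p1, hp1⟩ := hconn.exists_walk_length_eq_dist r (τ w)
  have hp1' : τ v ∉ p1.support := by
    intro hmem
    have h1 := dist_le (p1.takeUntil _ hmem)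
    have h2 := congrArg Walk.length (p1.take_spec hmem)
    rw [Walk.length_append] at h2
    have h3 : (p1.dropUntil _ hmem).length = 0 := by omega
    exact hne (Walk.eq_of_length_eq_zero h3).symm
  have hpos : T.dist r (τ v) ≠ 0 := by
    intro h0
    have h1 : T.dist r (τ w) = 0 := by omega
    rw [hconn.dist_eq_zero_iff] at h0 h1
    exact hne (h1.symm.trans h0)
  -- the node `s` before `τ v` on a shortest walk from `r`
  obtain ⟨s, hs, hsd⟩ : ∃ s, T.Adj (τ v) s ∧ T.dist r s < T.dist r (τ v) := by
    obtain ⟨q, hq⟩ := hconn.exists_walk_length_eq_dist (τ v) r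
    cases q with
    | nil => 
      exfalso
      apply hpos
      simp
    | cons hadj q' =>
      rename_i s
      refine ⟨s, hadj, ?_⟩
      have h1 := dist_le q'
      rw [Walk.length_cons] at hq
      rw [dist_comm (u := r) (v := s), dist_comm (u := r) (v := τ v)]
      omega
  have hsv : v ∉ X s := by
    intro hmem
    have := hmin v s hmem
    omega
  obtain ⟨p2, hp2⟩ := hconn.exists_walk_length_eq_dist r s
  have hp2' : τ v ∉ p2.support := by
    intro hmem
    have h1 := dist_le (p2.takeUntil _ hmem)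
    have h2 := Walk.length_takeUntil_le_length p2 hmem
    omega
  obtain ⟨p3, hp3⟩ := walk_in (h.connected w) (show x ∈ {t | w ∈ X t} from hxw)
    (show τ w ∈ {t | w ∈ X t} from hτ w)
  have hp3' : τ v ∉ p3.support := fun hmem => hcon (hp3 _ hmem)
  obtain ⟨p4, hp4⟩ := walk_in (h.connected v) (show τ v ∈ {t | v ∈ X t} from hτ v)
    (show x ∈ {t | v ∈ X t} from hxv)
  have hp4' : s ∉ p4.support := fun hmem => hsv (hp4 _ hmem)
  refine no_detour h.isTree.2 hs p4 hp4' ((p3.append p1.reverse).append p2) ?_
  rw [Walk.mem_support_append_iff, Walk.mem_support_append_iff, Walk.support_reverse,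
    List.mem_reverse]
  tauto

/-! ### The blow-up of the pentagon -/

/-- adjacency in the `5`-cycle -/
def adj5 (i j : Fin 5) : Bool := (j == i + 1) || (i == j + 1)

/-- The blow-up of the `5`-cycle: each vertex `i` is replaced by `m` independent vertices. -/
def blowUp (m : ℕ) : SimpleGraph (Fin 5 × Fin m) where
  Adj u v := adj5 u.1 v.1 = true
  symm := ⟨fun u v => by
    have : ∀ i j : Fin 5, adj5 i j = true → adj5 j i = true := by decide
    exact this _ _⟩
  loopless := ⟨fun u => by
    have : ∀ i : Fin 5, ¬ adj5 i i = true := by decide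
    exact this _⟩

theorem blowUp_adj {m : ℕ} (u v : Fin 5 × Fin m) :
    (blowUp m).Adj u v ↔ adj5 u.1 v.1 = true := Iff.rfl

theorem no_path : ∀ a b : Fin 5, adj5 a b = true → ∀ c, adj5 b c = true → adj5 a c = false →
    ∀ d, adj5 c d = true → adj5 a d = false → adj5 b d = false → ∀ e, adj5 d e = true →
    adj5 a e = false → adj5 b e = false → adj5 c e = false → False := by decide

theorem blowUp_free (m : ℕ) : IsEmpty (pathGraph 5 ↪g blowUp m) := by
  refine ⟨fun f => ?_⟩
  have hadj : ∀ i j : Fin 5, (pathGraph 5).Adj i j → adj5 (f i).1 (f j).1 = true :=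
    fun i j h => f.map_adj_iff.2 h
  have hnadj : ∀ i j : Fin 5, ¬ (pathGraph 5).Adj i j → adj5 (f i).1 (f j).1 = false := by
    intro i j h
    rw [← Bool.not_eq_true]
    exact fun h' => h (f.map_adj_iff.1 h')
  exact no_path (f 0).1 (f 1).1 (hadj 0 1 (by simp [pathGraph_adj]))
    (f 2).1 (hadj 1 2 (by simp [pathGraph_adj])) (hnadj 0 2 (by simp [pathGraph_adj]))
    (f 3).1 (hadj 2 3 (by simp [pathGraph_adj])) (hnadj 0 3 (by simp [pathGraph_adj]))
    (hnadj 1 3 (by simp [pathGraph_adj]))
    (f 4).1 (hadj 3 4 (by simp [pathGraph_adj])) (hnadj 0 4 (by simp [pathGraph_adj]))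
    (hnadj 1 4 (by simp [pathGraph_adj])) (hnadj 2 4 (by simp [pathGraph_adj]))

theorem rect : ∀ i i' j j' : Fin 5, adj5 i j = true → adj5 i j' = true → adj5 i' j = true →
    adj5 i' j' = true → i = i' ∨ j = j' := by decide

theorem biclique_le {m t : ℕ} (f : completeBipartiteGraph (Fin t) (Fin t) ↪g blowUp m) :
    t ≤ m := by
  have hadj : ∀ a b : Fin t, adj5 (f (Sum.inl a)).1 (f (Sum.inr b)).1 = true := by
    intro a b
    exact f.map_adj_iff.2 (by simp [completeBipartiteGraph])
  by_cases hA : ∀ a a' : Fin t, (f (Sum.inl a)).1 = (f (Sum.inl a')).1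
  · have hinj : Function.Injective (fun a : Fin t => (f (Sum.inl a)).2) := by
      intro a a' h
      have h1 : f (Sum.inl a) = f (Sum.inl a') := Prod.ext (hA a a') h
      exact Sum.inl_injective (f.injective h1)
    simpa using Fintype.card_le_of_injective _ hinj
  · push Not at hA
    obtain ⟨a, a', haa⟩ := hA
    have hinj : Function.Injective (fun b : Fin t => (f (Sum.inr b)).2) := by
      intro b b' h
      have h0 : (f (Sum.inr b)).1 = (f (Sum.inr b')).1 := by
        rcases rect _ _ _ _ (hadj a b) (hadj a b') (hadj a' b) (hadj a' b') with h | h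
        · exact absurd h haa
        · exact h
      have h1 : f (Sum.inr b) = f (Sum.inr b') := Prod.ext h0 h
      exact Sum.inr_injective (f.injective h1)
    simpa using Fintype.card_le_of_injective _ hinj

/-- the copy of `K_{m,m}` between two consecutive parts -/
def bmap (m : ℕ) : Fin m ⊕ Fin m → Fin 5 × Fin m
  | Sum.inl a => (0, a)
  | Sum.inr a => (1, a)

/-- the copy of `K_{m,m}` between two consecutive parts -/
def biclique (m : ℕ) : completeBipartiteGraph (Fin m) (Fin m) ↪g blowUp m where
  toFun := bmap m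
  inj' := by
    rintro (a | a) (b | b) h
    · simpa [bmap] using h
    · simp [bmap] at h
    · simp [bmap] at h
    · simpa [bmap] using h
  map_rel_iff' := by
    rintro (a | a) (b | b)
    · show adj5 0 0 = true ↔ _
      simp [completeBipartiteGraph, adj5]
    · show adj5 0 1 = true ↔ _
      simp [completeBipartiteGraph, adj5]
    · show adj5 1 0 = true ↔ _
      simp [completeBipartiteGraph, adj5]
    · show adj5 1 1 = true ↔ _
      simp [completeBipartiteGraph, adj5]

theorem ibn_blowUp (m : ℕ) : ibn (blowUp m) = m := by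
  have h1 : m ∈ {t | Nonempty (completeBipartiteGraph (Fin t) (Fin t) ↪g blowUp m)} :=
    ⟨biclique m⟩
  have h2 : ∀ t ∈ {t | Nonempty (completeBipartiteGraph (Fin t) (Fin t) ↪g blowUp m)}, t ≤ m :=
    fun t ⟨f⟩ => biclique_le f
  exact le_antisymm (csSup_le ⟨m, h1⟩ h2) (le_csSup ⟨m, h2⟩ h1)

/-- the neighbours of a vertex in the part `i` -/
def nbhd (m : ℕ) (i : Fin 5) : Finset (Fin 5 × Fin m) := {i + 1, i + 4} ×ˢ Finset.univ

theorem card_nbhd (m : ℕ) (i : Fin 5) : (nbhd m i).card = 2 * m := by
  unfold nbhd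
  rw [Finset.card_product, Finset.card_univ, Fintype.card_fin, Finset.card_pair]
  revert i
  decide

theorem adj_of_mem_nbhd {m : ℕ} {v w : Fin 5 × Fin m} (h : w ∈ nbhd m v.1) :
    (blowUp m).Adj v w := by
  unfold nbhd at h
  rw [Finset.mem_product, Finset.mem_insert, Finset.mem_singleton] at h
  have key : ∀ i j : Fin 5, (j = i + 1 ∨ j = i + 4) → adj5 i j = true := by decide
  exact key _ _ h.1

theorem not_adj_nbhd {m : ℕ} {i : Fin 5} {v w : Fin 5 × Fin m} (hv : v ∈ nbhd m i)
    (hw : w ∈ nbhd m i) : ¬ (blowUp m).Adj v w := by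
  unfold nbhd at hv hw
  rw [Finset.mem_product, Finset.mem_insert, Finset.mem_singleton] at hv hw
  have key : ∀ i j k : Fin 5, (j = i + 1 ∨ j = i + 4) → (k = i + 1 ∨ k = i + 4) →
    ¬ adj5 j k = true := by decide
  exact key _ _ _ hv.1 hw.1

theorem le_treeAlpha (m : ℕ) : 2 * m ≤ treeAlpha (blowUp m) := by
  classical
  rcases Nat.eq_zero_or_pos m with rfl | hm
  · simp
  have : Nonempty (Fin m) := ⟨⟨0, hm⟩⟩
  refine le_csInf ?_ ?_
  · refine ⟨(((blowUp m).induce (Set.univ : Set (Fin 5 × Fin m)))).indepNum, Unit, inferInstance,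
      ⊥, fun _ => Set.univ, ⟨IsTree.of_subsingleton, fun v => ⟨(), trivial⟩,
      fun u v _ => ⟨(), trivial, trivial⟩, fun v => ?_⟩, fun t => le_rfl⟩
    have : Nonempty {t : Unit | v ∈ (Set.univ : Set (Fin 5 × Fin m))} := ⟨⟨(), trivial⟩⟩
    exact Connected.of_subsingleton
  · rintro k ⟨ι, -, T, X, hX, hk⟩
    obtain ⟨v, t, -, hN⟩ := exists_bag hX
    refine le_trans ?_ (hk t)
    have hsub : ∀ w ∈ nbhd m v.1, w ∈ X t := fun w hw => hN w (adj_of_mem_nbhd hw)
    let s : Finset (X t) := (nbhd m v.1).attach.image (fun w => ⟨w.1, hsub w.1 w.2⟩)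
    have hs : s.card = 2 * m := by
      rw [Finset.card_image_of_injective, Finset.card_attach, card_nbhd]
      intro a b hab
      have := congrArg Subtype.val hab
      exact Subtype.ext this
    have hmem : ∀ w ∈ s, w.1 ∈ nbhd m v.1 := by
      intro w hw
      obtain ⟨a, -, rfl⟩ := Finset.mem_image.1 hw
      exact a.2
    have hind : ((blowUp m).induce (X t)).IsIndepSet (s : Set (X t)) := by
      intro a ha b hb _ hadj
      exact not_adj_nbhd (hmem a ha) (hmem b hb) hadj
    rw [← hs]
    exact hind.card_le_indepNum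

/-- **Main theorem.** For every `m` there is a finite `P₅`-free graph with induced biclique number
`m` and tree-independence number at least `2m`; so for every constant `c` there is a finite
`P₅`-free graph `G` with `tree-α(G) > ibn(G) + c`. -/
theorem result :
    (∀ m : ℕ, ∃ (V : Type) (_ : Finite V) (G : SimpleGraph V), IsEmpty (pathGraph 5 ↪g G) ∧
      ibn G = m ∧ 2 * m ≤ treeAlpha G) ∧
    ∀ c : ℕ, ∃ (V : Type) (_ : Finite V) (G : SimpleGraph V), IsEmpty (pathGraph 5 ↪g G) ∧
      ibn G + c < treeAlpha G := by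
  have h1 : ∀ m : ℕ, ∃ (V : Type) (_ : Finite V) (G : SimpleGraph V),
      IsEmpty (pathGraph 5 ↪g G) ∧ ibn G = m ∧ 2 * m ≤ treeAlpha G := fun m =>
    ⟨Fin 5 × Fin m, inferInstance, blowUp m, blowUp_free m, ibn_blowUp m, le_treeAlpha m⟩
  refine ⟨h1, fun c => ?_⟩
  obtain ⟨V, hV, G, hG, h2, h3⟩ := h1 (c + 1)
  exact ⟨V, hV, G, hG, by omega⟩

end Pool.Agent.Results.MP_0bffa7_co.PentagonBlowUp
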